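import Pool.Agent.Helper22.FF.Sect
import Pool.Agent.Helper22.TW.Stmts

set_option autoImplicit false

/-! Module CHE: the polynomial of the values is defined over `E`. -/

namespace Pool.Agent.Helper22.FF

open Pool.Agent.Helper14.BSC Polynomial Pool.Agent.Helper60.FF Pool.Agent.Helper18.FF3

section

variable {p : ℕ} [Fact p.Prime]

theorem che_interp (E : IntermediateField ℚ_[p] ℂ_[p]) (P : Polynomial ℂ_[p])
    (h : ∀ x ∈ E, P.eval x ∈ E) (i : ℕ) : P.coeff i ∈ E := by
  classical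
  set n := P.natDegree + 1 with hn
  have hinj : Set.InjOn (fun j : ℕ => (j : E)) (Finset.range n : Finset ℕ) :=
    fun a _ b _ hab => Nat.cast_injective hab
  have hinj' : Set.InjOn (fun j : ℕ => (j : ℂ_[p])) (Finset.range n : Finset ℕ) :=
    fun a _ b _ hab => Nat.cast_injective hab
  set Q : Polynomial E := Lagrange.interpolate (Finset.range n) (fun j : ℕ => (j : E))
    (fun j : ℕ => ⟨P.eval (j : ℂ_[p]), h _ (natCast_mem E j)⟩) with hQ
  have h1 : P = Q.map (algebraMap E ℂ_[p]) := by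
    apply Polynomial.eq_of_degrees_lt_of_eval_index_eq (v := fun j : ℕ => (j : ℂ_[p]))
      (Finset.range n) hinj'
    · rw [Finset.card_range]
      exact lt_of_le_of_lt degree_le_natDegree (by exact_mod_cast Nat.lt_succ_self _)
    · rw [degree_map]
      have := Lagrange.degree_interpolate_lt (fun j : ℕ => (⟨P.eval (j : ℂ_[p]), h _ (natCast_mem E j)⟩ : E)) hinj
      rw [Finset.card_range] at this ⊢
      exact this
    · intro j hj
      have h2 := Lagrange.eval_interpolate_at_node (fun j : ℕ => (⟨P.eval (j : ℂ_[p]), h _ (natCast_mem E j)⟩ : E)) hinj hj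
      have h3 : (Q.map (algebraMap E ℂ_[p])).eval ((algebraMap E ℂ_[p]) (j : E)) =
          algebraMap E ℂ_[p] (Q.eval (j : E)) := by
        rw [eval_map, eval₂_at_apply]
      have h4 : (algebraMap E ℂ_[p]) (j : E) = (j : ℂ_[p]) := map_natCast _ j
      rw [h4] at h3
      rw [h3, hQ, h2]
      rfl
  rw [h1, coeff_map]
  exact SetLike.coe_mem _

end

theorem st_CHE (hO : ST_ORB) (hQ : ST_EQV) (hF : ST_EFD) (hP : ST_PSI)
    (hR : Pool.Agent.Helper14.BSC.ST_RK) (hL : Pool.Agent.Helper22.TW.ST_PL) : ST_CHE := by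
  classical
  intro F k Ω _ _ _ _ _ _ _ _ _ _ hFU D t p _ ι₀ E hE hιE τ hτ hfin
  have hes : ∀ σ ∈ T0 k ι₀ τ, FiniteDimensional ℚ_[p] (Es E σ) :=
    (hF F k Ω hFU p ι₀ E hE hιE τ hτ).2
  have hpl : ∀ σ ∈ T0 k ι₀ τ, Nonempty (Place D p σ) := fun σ hσ =>
    ⟨(hR k Ω D p σ (Es E σ) (hes σ hσ) (mem_Es E σ)).choose⟩
  have hval : ∀ σ ∈ T0 k ι₀ τ, ∀ (P : Place D p σ) (x : P.C), P.φ x ∈ Es E σ := fun σ hσ P =>
    (hL k Ω D p σ (Es E σ) (hes σ hσ) (mem_Es E σ) P).1
  apply che_interp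
  intro x hx
  have hchi : (chi D t ι₀ τ).eval x = ∏ σ ∈ hfin.toFinset, (psi D t σ).eval x := by
    rw [chi, dif_pos hfin, eval_prod]
  obtain ⟨w, hw, hw2⟩ := hO p k E hE hfin.toFinset
    (fun σ hσ => hes σ (hfin.mem_toFinset.mp hσ)) (by
      intro σ hσ ρ hρ
      have hσ' := hfin.mem_toFinset.mp hσ
      refine ⟨(ρ : Es E σ →+* ℂ_[p]).comp (σ.codRestrict (Es E σ) (mem_Es E σ)), ?_, hρ, fun y => rfl⟩
      rw [hfin.mem_toFinset]
      refine ⟨?_, ?_⟩
      · intro a
        have h1 := hσ'.1 a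
        have h2 : σ (algebraMap (RatFunc F) k (RatFunc.C a)) ∈ E := by
          rw [h1]
          exact hιE a
        have h3 := hρ _ (mem_Es E σ (algebraMap (RatFunc F) k (RatFunc.C a))) h2
        rw [← h1]
        exact h3
      · have h1 := hσ'.2
        have h2 : σ (uk F k) ∈ E := by
          rw [h1]
          exact hτ
        have h3 := hρ _ (mem_Es E σ (uk F k)) h2
        exact h3.trans h1)
    (fun σ => (psi D t σ).eval x) 1 one_pos (by
      intro σ hσ
      have hσ' := hfin.mem_toFinset.mp hσ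
      obtain ⟨P⟩ := hpl σ hσ'
      by_cases ht : t ∈ P.C
      · refine ⟨x - P.φ ⟨t, ht⟩, sub_mem (le_Es E σ hx) (hval σ hσ' P _), ?_⟩
        rw [(hP k Ω D t p σ P).2 ht, pow_one]
        simp
      · refine ⟨1, one_mem _, ?_⟩
        rw [(hP k Ω D t p σ P).1 ht]
        simp) (by
      intro σ hσ σ' hσ' ρ hρ hW
      have hs := hfin.mem_toFinset.mp hσ
      have hs' := hfin.mem_toFinset.mp hσ'
      obtain ⟨P⟩ := hpl σ hs
      obtain ⟨P'⟩ := hpl σ' hs'
      obtain ⟨hC, hv⟩ := hQ k Ω D p σ σ' (Es E σ) (hes σ hs) (mem_Es E σ) ρ hρ.2 P P'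
      by_cases ht : t ∈ P.C
      · have ht' : t ∈ P'.C := hC ▸ ht
        obtain ⟨h1, h2⟩ := hv t ht ht'
        have e1 : (psi D t σ).eval x = x - P.φ ⟨t, ht⟩ := by
          rw [(hP k Ω D t p σ P).2 ht]
          simp
        have e2 : (psi D t σ').eval x = x - P'.φ ⟨t, ht'⟩ := by
          rw [(hP k Ω D t p σ' P').2 ht']
          simp
        have e3 : (⟨(psi D t σ).eval x, hW⟩ : Es E σ) = ⟨x, le_Es E σ hx⟩ - ⟨P.φ ⟨t, ht⟩, h1⟩ :=
          Subtype.ext e1
        change (psi D t σ').eval x = ρ ⟨(psi D t σ).eval x, hW⟩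
        rw [e3, map_sub, hρ.1 x (le_Es E σ hx) hx, e2, h2]
      · have ht' : t ∉ P'.C := hC ▸ ht
        have e1 : (psi D t σ).eval x = 1 := by
          rw [(hP k Ω D t p σ P).1 ht]
          simp
        have e2 : (psi D t σ').eval x = 1 := by
          rw [(hP k Ω D t p σ' P').1 ht']
          simp
        have e3 : (⟨(psi D t σ).eval x, hW⟩ : Es E σ) = 1 := Subtype.ext e1
        change (psi D t σ').eval x = ρ ⟨(psi D t σ).eval x, hW⟩
        rw [e3, map_one, e2])
  rw [hchi, hw2, pow_one]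
  exact hw

end Pool.Agent.Helper22.FF
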