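import Pool.Agent.Helper22.FF.Abs

set_option autoImplicit false

/-! Module ORB: descent of products over a set of embeddings stable under conjugation. -/

namespace Pool.Agent.Helper22.FF

open Pool.Agent.Helper14.BSC Polynomial Pool.Agent.Helper60.FF Pool.Agent.Helper18.FF3

/-- the abstract form, for a group `G` acting on a finite set and on a field -/
theorem orb_abs {G ι A : Type} [Group G] [MulAction G ι] [Fintype ι] [CommMonoid A]
    [MulDistribMulAction G A] (W : ι → A) (hW : ∀ (g : G) i, W (g • i) = g • W i) (m : ℕ)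
    (w₀ : ι → A) (hw₀ : ∀ i, W i = w₀ i ^ m) (hst : ∀ (g : G) i, g • i = i → g • w₀ i = w₀ i) :
    ∃ x : A, (∀ g : G, g • x = x) ∧ ∏ i, W i = x ^ m := by
  classical
  let rep : ι → ι := fun i => (Quotient.mk (MulAction.orbitRel G ι) i).out
  have hrep : ∀ i, ∃ g : G, g • rep i = i := by
    intro i
    have h : (MulAction.orbitRel G ι) (rep i) i := Quotient.mk_out (s := MulAction.orbitRel G ι) i
    have h' : (MulAction.orbitRel G ι) i (rep i) := (MulAction.orbitRel G ι).symm h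
    rw [MulAction.orbitRel_apply, MulAction.mem_orbit_iff] at h'
    exact h'
  choose γ hγ using hrep
  have hrepg : ∀ (g : G) i, rep (g • i) = rep i := by
    intro g i
    have : Quotient.mk (MulAction.orbitRel G ι) (g • i) = Quotient.mk (MulAction.orbitRel G ι) i := by
      apply Quotient.sound
      change (MulAction.orbitRel G ι) (g • i) i
      rw [MulAction.orbitRel_apply]
      exact MulAction.mem_orbit i g
    simp only [rep, this]
  let w : ι → A := fun i => γ i • w₀ (rep i)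
  have hwm : ∀ i, w i ^ m = W i := by
    intro i
    change (γ i • w₀ (rep i)) ^ m = W i
    rw [← smul_pow', ← hw₀, ← hW, hγ]
  have hwg : ∀ (g : G) i, g • w i = w (g • i) := by
    intro g i
    change g • γ i • w₀ (rep i) = γ (g • i) • w₀ (rep (g • i))
    rw [hrepg, smul_smul]
    have h1 : ((γ (g • i))⁻¹ * (g * γ i)) • rep i = rep i := by
      have h2 := hγ (g • i)
      rw [hrepg] at h2
      rw [mul_smul, mul_smul, hγ, inv_smul_eq_iff, h2]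
    have h3 := hst _ _ h1
    rw [mul_smul, inv_smul_eq_iff] at h3
    exact h3
  refine ⟨∏ i, w i, ?_, ?_⟩
  · intro g
    rw [Finset.smul_prod']
    simp only [hwg]
    exact Equiv.prod_comp (MulAction.toPerm g) w
  · rw [← Finset.prod_pow]
    exact Finset.prod_congr rfl fun i _ => (hwm i).symm

section

variable {p : ℕ} [Fact p.Prime]

theorem orb_alg {E : IntermediateField ℚ_[p] ℂ_[p]} (hE : FiniteDimensional ℚ_[p] E) :
    E ≤ algebraicClosure ℚ_[p] ℂ_[p] := by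
  intro x hx
  rw [mem_algebraicClosure_iff]
  have h := IsAlgebraic.of_finite ℚ_[p] (⟨x, hx⟩ : E)
  exact h.algebraMap

/-- composition of an embedding with an automorphism of the algebraic closure -/
noncomputable def orb_comp {K : Type} [Field K]
    (g : algebraicClosure ℚ_[p] ℂ_[p] ≃ₐ[ℚ_[p]] algebraicClosure ℚ_[p] ℂ_[p]) (σ : K →+* ℂ_[p])
    (h : ∀ y, σ y ∈ algebraicClosure ℚ_[p] ℂ_[p]) : K →+* ℂ_[p] :=
  ((algebraicClosure ℚ_[p] ℂ_[p]).val : _ →+* ℂ_[p]).comp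
    ((g : _ →+* algebraicClosure ℚ_[p] ℂ_[p]).comp (σ.codRestrict (algebraicClosure ℚ_[p] ℂ_[p]) h))

theorem orb_comp_apply {K : Type} [Field K]
    (g : algebraicClosure ℚ_[p] ℂ_[p] ≃ₐ[ℚ_[p]] algebraicClosure ℚ_[p] ℂ_[p]) (σ : K →+* ℂ_[p])
    (h : ∀ y, σ y ∈ algebraicClosure ℚ_[p] ℂ_[p]) (y : K) :
    orb_comp g σ h y = (g ⟨σ y, h y⟩ : ℂ_[p]) := rfl

/-- restriction of an automorphism -/
noncomputable def orb_rho {E : IntermediateField ℚ_[p] ℂ_[p]}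
    (g : algebraicClosure ℚ_[p] ℂ_[p] ≃ₐ[ℚ_[p]] algebraicClosure ℚ_[p] ℂ_[p])
    (h : E ≤ algebraicClosure ℚ_[p] ℂ_[p]) : E →ₐ[ℚ_[p]] ℂ_[p] :=
  (algebraicClosure ℚ_[p] ℂ_[p]).val.comp
    ((g : _ →ₐ[ℚ_[p]] algebraicClosure ℚ_[p] ℂ_[p]).comp (IntermediateField.inclusion h))

theorem orb_rho_apply {E : IntermediateField ℚ_[p] ℂ_[p]}
    (g : algebraicClosure ℚ_[p] ℂ_[p] ≃ₐ[ℚ_[p]] algebraicClosure ℚ_[p] ℂ_[p])
    (h : E ≤ algebraicClosure ℚ_[p] ℂ_[p]) (x : ℂ_[p]) (hx : x ∈ E) :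
    orb_rho g h ⟨x, hx⟩ = (g ⟨x, h hx⟩ : ℂ_[p]) := rfl

/-- the fixed field of an automorphism -/
def orb_fix (g : algebraicClosure ℚ_[p] ℂ_[p] ≃ₐ[ℚ_[p]] algebraicClosure ℚ_[p] ℂ_[p]) :
    IntermediateField ℚ_[p] ℂ_[p] where
  carrier := {x | ∃ hx : x ∈ algebraicClosure ℚ_[p] ℂ_[p], g ⟨x, hx⟩ = ⟨x, hx⟩}
  mul_mem' := by
    rintro a b ⟨ha, ha'⟩ ⟨hb, hb'⟩
    refine ⟨mul_mem ha hb, ?_⟩
    have : (⟨a * b, mul_mem ha hb⟩ : algebraicClosure ℚ_[p] ℂ_[p]) = ⟨a, ha⟩ * ⟨b, hb⟩ := rfl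
    rw [this, map_mul, ha', hb']
  add_mem' := by
    rintro a b ⟨ha, ha'⟩ ⟨hb, hb'⟩
    refine ⟨add_mem ha hb, ?_⟩
    have : (⟨a + b, add_mem ha hb⟩ : algebraicClosure ℚ_[p] ℂ_[p]) = ⟨a, ha⟩ + ⟨b, hb⟩ := rfl
    rw [this, map_add, ha', hb']
  algebraMap_mem' := by
    intro r
    refine ⟨(algebraicClosure ℚ_[p] ℂ_[p]).algebraMap_mem r, ?_⟩
    exact g.commutes r
  inv_mem' := by
    rintro a ⟨ha, ha'⟩
    refine ⟨inv_mem ha, ?_⟩
    have : (⟨a⁻¹, inv_mem ha⟩ : algebraicClosure ℚ_[p] ℂ_[p]) = (⟨a, ha⟩)⁻¹ := rfl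
    rw [this, map_inv₀, ha']

theorem orb_mem_fix {g : algebraicClosure ℚ_[p] ℂ_[p] ≃ₐ[ℚ_[p]] algebraicClosure ℚ_[p] ℂ_[p]}
    {x : ℂ_[p]} : x ∈ orb_fix g ↔
      ∃ hx : x ∈ algebraicClosure ℚ_[p] ℂ_[p], g ⟨x, hx⟩ = ⟨x, hx⟩ := Iff.rfl

end

theorem st_ORB : ST_ORB := by
  classical
  intro p _ K _ E hE T hfin hT W m hm hWm hWe
  have hEA := orb_alg hE
  have hEs : ∀ σ ∈ T, Es E σ ≤ algebraicClosure ℚ_[p] ℂ_[p] := fun σ hσ => orb_alg (hfin σ hσ)
  let E' : IntermediateField ℚ_[p] (algebraicClosure ℚ_[p] ℂ_[p]) := IntermediateField.restrict hEA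
  have hgE : ∀ g ∈ E'.fixingSubgroup, ∀ x (hx : x ∈ E), g ⟨x, hEA hx⟩ = ⟨x, hEA hx⟩ := by
    intro g hg x hx
    rw [IntermediateField.mem_fixingSubgroup_iff] at hg
    exact hg _ ((IntermediateField.mem_restrict hEA ⟨x, hEA hx⟩).mpr hx)
  have hA : ∀ σ ∈ T, ∀ y, σ y ∈ algebraicClosure ℚ_[p] ℂ_[p] := fun σ hσ y =>
    hEs σ hσ (mem_Es E σ y)
  have hCj : ∀ g ∈ E'.fixingSubgroup, ∀ σ (hσ : σ ∈ T),
      Cj E σ (orb_comp g σ (hA σ hσ)) (orb_rho g (hEs σ hσ)) := by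
    intro g hg σ hσ
    refine ⟨?_, fun y => rfl⟩
    intro x hx hxE
    rw [orb_rho_apply]
    exact congrArg Subtype.val (hgE g hg x hxE)
  have hmem : ∀ g ∈ E'.fixingSubgroup, ∀ σ (hσ : σ ∈ T), orb_comp g σ (hA σ hσ) ∈ T := by
    intro g hg σ hσ
    obtain ⟨σ', h1, h2⟩ := hT σ hσ (orb_rho g (hEs σ hσ)) (hCj g hg σ hσ).1
    have : orb_comp g σ (hA σ hσ) = σ' := by
      ext y
      rw [← h2.2 y]
      rfl
    rw [this]
    exact h1
  let act : MulAction E'.fixingSubgroup T :=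
    { smul := fun g σ => ⟨orb_comp g.1 σ.1 (hA σ.1 σ.2), hmem g.1 g.2 σ.1 σ.2⟩
      one_smul := fun σ => by
        apply Subtype.ext
        ext y
        rfl
      mul_smul := fun g g' σ => by
        apply Subtype.ext
        ext y
        rfl }
  choose! w hw1 hw2 using hWm
  have hWA : ∀ σ ∈ T, W σ ∈ algebraicClosure ℚ_[p] ℂ_[p] := by
    intro σ hσ
    rw [hw2 σ hσ]
    exact pow_mem (hEs σ hσ (hw1 σ hσ)) m
  obtain ⟨x, hx1, hx2⟩ := orb_abs (G := E'.fixingSubgroup) (ι := T)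
    (fun σ => (⟨W σ.1, hWA σ.1 σ.2⟩ : algebraicClosure ℚ_[p] ℂ_[p])) (by
      intro g σ
      apply Subtype.ext
      have hWs : W σ.1 ∈ Es E σ.1 := by
        rw [hw2 σ.1 σ.2]
        exact pow_mem (hw1 σ.1 σ.2) m
      exact hWe σ.1 σ.2 _ (hmem g.1 g.2 σ.1 σ.2) _ (hCj g.1 g.2 σ.1 σ.2) hWs) m
    (fun σ => ⟨w σ.1, hEs σ.1 σ.2 (hw1 σ.1 σ.2)⟩) (by
      intro σ
      apply Subtype.ext
      exact hw2 σ.1 σ.2) (by
      intro g σ hgσ
      have hle : Es E σ.1 ≤ orb_fix g.1 := by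
        refine sup_le ?_ (IntermediateField.adjoin_le_iff.mpr ?_)
        · intro x hx
          exact ⟨hEA hx, hgE g.1 g.2 x hx⟩
        · rintro _ ⟨y, rfl⟩
          refine ⟨hA σ.1 σ.2 y, Subtype.ext ?_⟩
          have h1 : orb_comp g.1 σ.1 (hA σ.1 σ.2) = σ.1 := congrArg Subtype.val hgσ
          have h2 := congrArg (fun f : K →+* ℂ_[p] => f y) h1
          exact h2
      obtain ⟨h1, h2⟩ := orb_mem_fix.mp (hle (hw1 σ.1 σ.2))
      exact h2)
  have hxE : x ∈ E' := by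
    rw [← InfiniteGalois.fixedField_fixingSubgroup E', IntermediateField.mem_fixedField_iff]
    intro g hg
    exact hx1 ⟨g, hg⟩
  refine ⟨x, (IntermediateField.mem_restrict hEA x).mp hxE, ?_⟩
  have h1 := congrArg (algebraicClosure ℚ_[p] ℂ_[p]).val hx2
  rw [map_prod, map_pow] at h1
  rw [← Finset.prod_coe_sort]
  exact h1

end Pool.Agent.Helper22.FF
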